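import Pool.Agent.H.MP_cc1c4a_pr.B

namespace Pool.Agent.Results.MP_cc1c4a_pr.Gates

open MeasureTheory ProbabilityTheory

def Z (d : ℕ) : SimpleGraph (Fin d → ℤ) where
  Adj x y := ∑ i, |x i - y i| = 1
  symm := ⟨fun x y h => by simpa only [abs_sub_comm (y _)] using h⟩
  loopless := ⟨fun x h => by simp at h⟩

def Perc {d : ℕ} (ω : (Z d).edgeSet → Bool) : Prop :=
  ∃ K : (SimpleGraph.fromEdgeSet
    {e | ∃ h : e ∈ (Z d).edgeSet, ω ⟨e, h⟩ = true}).ConnectedComponent, K.supp.Infinite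

open Pool.Agent.H.MP_cc1c4a_pr in
theorem result (d : ℕ) (hd : 2 ≤ d) : ∃ μ : Measure ((Z d).edgeSet → Bool),
    IsProbabilityMeasure μ ∧
    (∀ φ : Z d ≃g Z d, μ.map (fun ω e => ω (φ.mapEdgeSet e)) = μ) ∧
    (∀ e, ∀ᵐ ω ∂μ, 0 < μ[{ω | ω e = true}.indicator fun _ => (1 : ℝ) | cylinderEvents {e}ᶜ] ω ∧
      μ[{ω | ω e = true}.indicator fun _ => (1 : ℝ) | cylinderEvents {e}ᶜ] ω < 1) ∧
    (∀ᵐ ω ∂μ, Perc ω) ∧
    ∀ p : unitInterval, p < 1 → ∀ᵐ z ∂μ.prod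
      (Measure.infinitePi fun _ : (Z d).edgeSet => bernoulliMeasure true false p),
        ¬ Perc fun e => z.1 e && z.2 e :=
  ⟨M d, Mp, inv, energy hd, perc_ae hd, fun p hp => thin _ (by
    rw [bernoulliMeasure_apply_of_notMem_of_mem _ .of_discrete (by simp) (by simp)]
    simpa [← NNReal.coe_eq_zero, sub_eq_zero] using fun e : 1 = (p : ℝ) =>
      hp.ne (Subtype.ext e.symm))⟩

end Pool.Agent.Results.MP_cc1c4a_pr.Gates
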